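import Pool.Agent.N569.AB.Mirror
import Pool.Agent.H832R3.VJ.Fin

/-!
# The number of the terms of the brackets of arborescent links
-/

set_option autoImplicit false

namespace Pool.Agent.N569.AO

open Finset LaurentPolynomial Pool.Agent.H891R2.Jones Pool.Agent.H891R2.MT Pool.Agent.H891R2.RF
open Pool.Agent.R811.Abc Pool.Agent.N569.AB

/-- the exponents are in at most `n` blocks of the length `2 r + 1` and step `4` -/
def Q (n r : ℕ) (F : ℤ[T;T⁻¹]) : Prop :=
  ∃ E : Finset ℤ, E.card ≤ n ∧ ∀ j, F.coeff j ≠ 0 → ∃ e ∈ E, ∃ i : ℤ, |i| ≤ r ∧ j = e + 4 * i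

theorem Q.mono {n n' r r' : ℕ} {F : ℤ[T;T⁻¹]} (h : Q n r F) (hn : n ≤ n') (hr : r ≤ r') : Q n' r' F := by
  obtain ⟨E, h1, h2⟩ := h
  refine ⟨E, h1.trans hn, fun j hj => ?_⟩
  obtain ⟨e, he, i, hi, h3⟩ := h2 j hj
  exact ⟨e, he, i, hi.trans (by exact_mod_cast hr), h3⟩

theorem Q.add {n n' r : ℕ} {F G : ℤ[T;T⁻¹]} (h : Q n r F) (h' : Q n' r G) : Q (n + n') r (F + G) := by
  classical
  obtain ⟨E, h1, h2⟩ := h
  obtain ⟨E', h1', h2'⟩ := h'
  refine ⟨E ∪ E', (Finset.card_union_le _ _).trans (by omega), fun j hj => ?_⟩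
  rw [AddMonoidAlgebra.coeff_add, Finsupp.add_apply] at hj
  by_cases h3 : F.coeff j = 0
  · rw [h3, zero_add] at hj
    obtain ⟨e, he, i, hi, h4⟩ := h2' j hj
    exact ⟨e, Finset.mem_union_right _ he, i, hi, h4⟩
  · obtain ⟨e, he, i, hi, h4⟩ := h2 j h3
    exact ⟨e, Finset.mem_union_left _ he, i, hi, h4⟩

theorem Q.neg {n r : ℕ} {F : ℤ[T;T⁻¹]} (h : Q n r F) : Q n r (-F) := by
  obtain ⟨E, h1, h2⟩ := h
  refine ⟨E, h1, fun j hj => h2 j ?_⟩
  rw [AddMonoidAlgebra.coeff_neg, Finsupp.neg_apply, neg_ne_zero] at hj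
  exact hj

theorem Q.sub {n n' r : ℕ} {F G : ℤ[T;T⁻¹]} (h : Q n r F) (h' : Q n' r G) : Q (n + n') r (F - G) := by
  rw [sub_eq_add_neg]
  exact h.add h'.neg

theorem Q.mul {n n' r r' : ℕ} {F G : ℤ[T;T⁻¹]} (h : Q n r F) (h' : Q n' r' G) :
    Q (n * n') (r + r') (F * G) := by
  classical
  obtain ⟨E, h1, h2⟩ := h
  obtain ⟨E', h1', h2'⟩ := h'
  refine ⟨(E ×ˢ E').image (fun p => p.1 + p.2), ?_, fun j hj => ?_⟩
  · refine Finset.card_image_le.trans ?_
    rw [Finset.card_product]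
    exact Nat.mul_le_mul h1 h1'
  · have h3 : ∃ a b : ℤ, F.coeff a ≠ 0 ∧ G.coeff b ≠ 0 ∧ a + b = j := by
      by_contra hcon
      push Not at hcon
      apply hj
      rw [AddMonoidAlgebra.coeff_mul]
      unfold Finsupp.sum
      refine Finset.sum_eq_zero fun a ha => ?_
      refine Finset.sum_eq_zero fun b hb => ?_
      rw [Finsupp.mem_support_iff] at ha hb
      show (if a + b = j then F.coeff a * G.coeff b else 0) = 0
      rw [if_neg (hcon a b ha hb)]
    obtain ⟨a, b, ha, hb, hab⟩ := h3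
    obtain ⟨e, he, i, hi, h4⟩ := h2 a ha
    obtain ⟨e', he', i', hi', h4'⟩ := h2' b hb
    refine ⟨e + e', Finset.mem_image.2 ⟨(e, e'), Finset.mem_product.2 ⟨he, he'⟩, rfl⟩, i + i', ?_, ?_⟩
    · push_cast
      exact (abs_add_le i i').trans (add_le_add hi hi')
    · rw [← hab, h4, h4']
      ring

theorem Q.CT (c n : ℤ) : Q 1 0 (C c * T n) := by
  refine ⟨{n}, by simp, fun j hj => ⟨n, by simp, 0, by simp, ?_⟩⟩
  rw [← LaurentPolynomial.single_eq_C_mul_T, AddMonoidAlgebra.coeff_single, Finsupp.single_apply] at hj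
  by_contra h
  apply hj
  rw [if_neg]
  intro h'
  apply h
  rw [h']
  ring

theorem Q.T (n : ℤ) : Q 1 0 (T n) := by
  have := Q.CT 1 n
  rwa [map_one, one_mul] at this

theorem Q.one : Q 1 0 (1 : ℤ[T;T⁻¹]) := by
  rw [← T_zero]
  exact Q.T 0

/-- a block -/
theorem Q.of_exps {F : ℤ[T;T⁻¹]} (e : ℤ) (r : ℕ) (h : ∀ j, F.coeff j ≠ 0 → ∃ i : ℤ, |i| ≤ r ∧ j = e + 4 * i) :
    Q 1 r F := ⟨{e}, by simp, fun j hj => ⟨e, by simp, h j hj⟩⟩

theorem Q_T3 (a : ℤ) (ha : |a| ≤ 1) : Q 1 1 (LaurentPolynomial.T (4 * a)) := by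
  refine Q.of_exps 0 1 fun j hj => ⟨a, by exact_mod_cast ha, ?_⟩
  rw [LaurentPolynomial.T_apply] at hj
  by_contra h
  apply hj
  rw [if_neg]
  intro h'
  apply h
  rw [← h']
  ring

theorem Q_add1 {r : ℕ} {F G : ℤ[T;T⁻¹]} {e : ℤ}
    (h : ∀ j, F.coeff j ≠ 0 → ∃ i : ℤ, |i| ≤ r ∧ j = e + 4 * i)
    (h' : ∀ j, G.coeff j ≠ 0 → ∃ i : ℤ, |i| ≤ r ∧ j = e + 4 * i) :
    ∀ j, (F + G).coeff j ≠ 0 → ∃ i : ℤ, |i| ≤ r ∧ j = e + 4 * i := by
  intro j hj
  rw [AddMonoidAlgebra.coeff_add, Finsupp.add_apply] at hj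
  by_cases h3 : F.coeff j = 0
  · rw [h3, zero_add] at hj
    exact h' j hj
  · exact h j h3

theorem dd2 : (dd ^ 2 - 1 : ℤ[T;T⁻¹]) = LaurentPolynomial.T 4 + 1 + LaurentPolynomial.T (-4) := by
  unfold dd
  have h1 : (LaurentPolynomial.T 2 * LaurentPolynomial.T (-2) : ℤ[T;T⁻¹]) = 1 := by
    rw [← T_add]; norm_num
  have h2 : (LaurentPolynomial.T 2 * LaurentPolynomial.T 2 : ℤ[T;T⁻¹]) = LaurentPolynomial.T 4 := by
    rw [← T_add]; norm_num
  have h3 : (LaurentPolynomial.T (-2) * LaurentPolynomial.T (-2) : ℤ[T;T⁻¹]) = LaurentPolynomial.T (-4) := by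
    rw [← T_add]; norm_num
  linear_combination 2 * h1 + h2 + h3

theorem Q_dd2 : Q 1 1 (dd ^ 2 - 1) := by
  rw [dd2]
  have key : ∀ a : ℤ, |a| ≤ 1 → ∀ j, (LaurentPolynomial.T (4 * a) : ℤ[T;T⁻¹]).coeff j ≠ 0 →
      ∃ i : ℤ, |i| ≤ ((1 : ℕ) : ℤ) ∧ j = 0 + 4 * i := by
    intro a ha j hj
    refine ⟨a, by exact_mod_cast ha, ?_⟩
    rw [LaurentPolynomial.T_apply] at hj
    by_contra h
    apply hj
    rw [if_neg]
    intro h'
    apply h
    rw [← h']
    ring
  refine Q.of_exps 0 1 (Q_add1 (Q_add1 ?_ ?_) ?_)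
  · exact key 1 (by norm_num)
  · have := key 0 (by norm_num)
    rwa [mul_zero, T_zero] at this
  · exact key (-1) (by norm_num)

/-- `dd ^ n` has one block -/
theorem Q_ddpow (n : ℕ) : Q 1 n (dd ^ n) := by
  refine Q.of_exps (-2 * n) n ?_
  have key : ∀ n : ℕ, ∀ j, ((dd ^ n : ℤ[T;T⁻¹])).coeff j ≠ 0 → ∃ i : ℤ, 0 ≤ i ∧ i ≤ n ∧ j = -2 * n + 4 * i := by
    intro n
    induction n with
    | zero =>
      intro j hj
      rw [pow_zero, ← T_zero, LaurentPolynomial.T_apply] at hj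
      by_contra h
      apply hj
      rw [if_neg]
      intro h'
      apply h
      exact ⟨0, by omega, by omega, by push_cast; omega⟩
    | succ n ih =>
      intro j hj
      rw [pow_succ] at hj
      have h1 : (dd ^ n * dd : ℤ[T;T⁻¹]).coeff j = -(dd ^ n : ℤ[T;T⁻¹]).coeff (j - 2) -
          (dd ^ n : ℤ[T;T⁻¹]).coeff (j + 2) := by
        have h2 : (dd ^ n * dd : ℤ[T;T⁻¹]) = -(LaurentPolynomial.T 2 * dd ^ n) - LaurentPolynomial.T (-2) * dd ^ n := by
          unfold dd; ring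
        rw [h2, AddMonoidAlgebra.coeff_sub, Finsupp.sub_apply, AddMonoidAlgebra.coeff_neg, Finsupp.neg_apply,
          AB.coeff_T_mul, AB.coeff_T_mul, sub_neg_eq_add]
      rw [h1] at hj
      by_cases h3 : (dd ^ n : ℤ[T;T⁻¹]).coeff (j - 2) = 0
      · have h4 : (dd ^ n : ℤ[T;T⁻¹]).coeff (j + 2) ≠ 0 := by
          intro h5
          apply hj
          rw [h3, h5]
          ring
        obtain ⟨i, hi1, hi2, hi3⟩ := ih _ h4
        exact ⟨i, hi1, by push_cast; omega, by push_cast; omega⟩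
      · obtain ⟨i, hi1, hi2, hi3⟩ := ih _ h3
        exact ⟨i + 1, by omega, by push_cast; omega, by push_cast; omega⟩
  intro j hj
  obtain ⟨i, h1, h2, h3⟩ := key n j hj
  exact ⟨i, by rw [abs_of_nonneg h1]; exact h2, h3⟩

/-- the number of the terms -/
theorem Q.card {n r : ℕ} {F : ℤ[T;T⁻¹]} (h : Q n r F) : F.coeff.support.card ≤ n * (2 * r + 1) := by
  classical
  obtain ⟨E, h1, h2⟩ := h
  have h3 : F.coeff.support ⊆ (E ×ˢ Finset.Icc (-(r : ℤ)) r).image (fun p => p.1 + 4 * p.2) := by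
    intro j hj
    rw [Finsupp.mem_support_iff] at hj
    obtain ⟨e, he, i, hi, h4⟩ := h2 j hj
    rw [Finset.mem_image]
    refine ⟨(e, i), Finset.mem_product.2 ⟨he, Finset.mem_Icc.2 (abs_le.1 hi)⟩, h4.symm⟩
  refine (Finset.card_le_card h3).trans (Finset.card_image_le.trans ?_)
  rw [Finset.card_product, Int.card_Icc]
  refine Nat.mul_le_mul h1 (le_of_eq ?_)
  omega

/-! ### trees -/

/-- the number of the vertices -/
def size : Tree → ℕ
  | .row _ => 1
  | .graft v c => size v + size c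
  | .insert v _ _ => size v

theorem size_pos (t : Tree) : 1 ≤ size t := by
  induction t with
  | row a => exact le_rfl
  | graft v c ihv ihc => simp only [size]; omega
  | insert v S τ ih => exact ih

theorem tree_Q (t : Tree) (ht : t.Plain) : ∃ v : ℤ[T;T⁻¹] × ℤ[T;T⁻¹], Ten t.tangle v.1 v.2 ∧
    Q (2 ^ (size t - 1)) (size t - 1) (dd ^ (size t - 1) * v.1) ∧
    Q (2 ^ (size t - 1)) (size t - 1) (dd ^ (size t - 1) * (v.1 + dd * v.2)) := by
  induction t with
  | row a =>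
    obtain ⟨v, h1, h2, h3⟩ := Ten_row a
    refine ⟨v, h1, ?_, ?_⟩
    · rw [h2]
      simpa [size] using Q.T a
    · rw [h3]
      have := Q.CT ((-1) ^ a.natAbs) (-3 * a)
      simpa [size] using this
  | graft v c ihv ihc =>
    obtain ⟨p, p1, p2, p3⟩ := ihv ht.1
    obtain ⟨q, q1, q2, q3⟩ := ihc ht.2
    have hsv := size_pos v
    have hsc := size_pos c
    refine ⟨hs p (q.2, q.1), Ten_hsum _ _ _ _ _ _ p1 (Ten_rot _ _ _ q1), ?_, ?_⟩
    · have e1 : dd ^ (size (Tree.graft v c) - 1) * (hs p (q.2, q.1)).1 =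
          (dd ^ (size v - 1) * p.1) * (dd ^ (size c - 1) * (q.1 + dd * q.2) - dd ^ (size c - 1) * q.1) := by
        have h1 : size (Tree.graft v c) - 1 = (size v - 1) + (size c - 1) + 1 := by
          simp only [size]; omega
        rw [h1, pow_add, pow_add, pow_one]
        unfold hs
        ring
      rw [e1]
      have h2 := p2.mul (q3.sub q2)
      refine h2.mono (le_of_eq ?_) (by simp only [size]; omega)
      have h1 : size (Tree.graft v c) - 1 = (size v - 1) + ((size c - 1) + 1) := by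
        simp only [size]; omega
      rw [h1, pow_add 2 (size v - 1), pow_succ]
      ring
    · rw [hs_snd]
      have e1 : dd ^ (size (Tree.graft v c) - 1) * ((p.1 + dd * p.2) * (q.2 + dd * q.1)) =
          (dd ^ (size v - 1) * (p.1 + dd * p.2)) *
            (dd ^ (size c - 1) * (q.1 + dd * q.2) + (dd ^ 2 - 1) * (dd ^ (size c - 1) * q.1)) := by
        have h1 : size (Tree.graft v c) - 1 = (size v - 1) + (size c - 1) + 1 := by
          simp only [size]; omega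
        rw [h1, pow_add, pow_add, pow_one]
        ring
      show Q _ _ (dd ^ (size (Tree.graft v c) - 1) * ((p.1 + dd * p.2) * (q.2 + dd * q.1)))
      rw [e1]
      have h3 : Q (2 ^ (size c - 1)) (1 + (size c - 1)) ((dd ^ 2 - 1) * (dd ^ (size c - 1) * q.1)) := by
        have := Q_dd2.mul q2
        rwa [one_mul] at this
      have h2 := p3.mul ((q3.mono le_rfl (show size c - 1 ≤ 1 + (size c - 1) by omega)).add h3)
      refine h2.mono (le_of_eq ?_) (by simp only [size]; omega)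
      have h1 : size (Tree.graft v c) - 1 = (size v - 1) + ((size c - 1) + 1) := by
        simp only [size]; omega
      rw [h1, pow_add 2 (size v - 1), pow_succ]
      ring
  | insert v S τ ih => exact absurd ht (fun h => h)

theorem bracket_Q (t : Tree) (ht : t.Plain) :
    Q (2 ^ size t) (size t) (dd ^ size t * t.link.std.bracket) := by
  obtain ⟨v, h1, h2, h3⟩ := tree_Q t ht
  have h4 : t.link.std.bracket = v.2 + dd * v.1 := by
    have := brH_of_Ten _ _ _ h1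
    unfold brH at this
    rw [add_comm]
    exact this
  have hs := size_pos t
  obtain ⟨k, hk⟩ : ∃ k, size t = k + 1 := ⟨size t - 1, by omega⟩
  rw [hk, Nat.add_sub_cancel] at h2 h3
  have e1 : dd ^ size t * t.link.std.bracket =
      dd ^ k * (v.1 + dd * v.2) + (dd ^ 2 - 1) * (dd ^ k * v.1) := by
    rw [h4, hk, pow_succ]
    ring
  rw [e1, hk]
  have h5 : Q (2 ^ k) (1 + k) ((dd ^ 2 - 1) * (dd ^ k * v.1)) := by
    have := Q_dd2.mul h2
    rwa [one_mul] at this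
  refine ((h3.mono le_rfl (show k ≤ 1 + k by omega)).add h5).mono (le_of_eq (by ring)) (by omega)

end Pool.Agent.N569.AO
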