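import Pool.Agent.N569.AO.Cnt

/-!
# Vassiliev invariants of an explicit order detect arborescent links
-/

set_option autoImplicit false

namespace Pool.Agent.N569.AO

open Finset LaurentPolynomial Pool.Agent.H891R2.Jones Pool.Agent.H891R2.MT Pool.Agent.H891R2.RF
open Pool.Agent.R811.Abc Pool.Agent.N569.AB Pool.Agent.H832R3.VJ

theorem sep_of_card (X Y : Dia) (G : ℤ[T;T⁻¹]) (hG : G ≠ 0) (M : ℕ)
    (h : (G * (X.D.fPoly - Y.D.fPoly)).coeff.support.card ≤ M + 1) (hne : X.D.fPoly ≠ Y.D.fPoly) :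
    Separated M X Y := by
  by_contra hs
  have h1 : ∀ j < M + 1, moment j (X.D.fPoly - Y.D.fPoly) = 0 := by
    intro j hj
    by_contra hc
    apply hs
    refine ⟨j, by omega, fun X => moment j X.D.fPoly, isVassiliev_moment j, fun he => hc ?_⟩
    rw [moment_sub]
    exact sub_eq_zero.2 he
  have h2 := eq_zero_of_moment (M + 1) (X.D.fPoly - Y.D.fPoly) G h h1
  rcases mul_eq_zero.1 h2 with h3 | h3
  · exact hG h3
  · exact hne (sub_eq_zero.1 h3)

theorem fPoly_Q (N : ℕ) (t : Tree) (ht : t.Plain) (hN : size t ≤ N) (D : Diagram t.tangle.P)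
    (hD : Orients D t.link) : Q (2 ^ size t) N (dd ^ N * D.fPoly) := by
  haveI : Nonempty t.tangle.P := ⟨t.tangle.corner false false⟩
  have h1 := bracket_Q t ht
  rw [← T6.bracket_orients D t.link hD] at h1
  have h2 := (Q_ddpow (N - size t)).mul h1
  rw [one_mul, ← mul_assoc, ← pow_add] at h2
  have h3 : N - size t + size t = N := by omega
  rw [h3] at h2
  have h4 := (Q.T (-3 * D.writhe)).mul h2
  rw [one_mul, zero_add] at h4
  unfold Diagram.fPoly
  by_cases hw : Even D.writhe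
  · rw [if_pos hw, one_mul]
    have e1 : dd ^ N * (T (-3 * D.writhe) * D.bracket) = T (-3 * D.writhe) * (dd ^ N * D.bracket) := by ring
    rw [e1]
    exact h4
  · rw [if_neg hw]
    have e1 : dd ^ N * (-1 * T (-3 * D.writhe) * D.bracket) = -(T (-3 * D.writhe) * (dd ^ N * D.bracket)) := by ring
    rw [e1]
    exact h4.neg

theorem dd_ne : (dd : ℤ[T;T⁻¹]) ≠ 0 := FinL.delta_ne

/-- one order for all arborescent links with at most `N` vertices -/
theorem detect_arb (N : ℕ) (t : Tree) (ht : t.Plain) (hN : size t ≤ N) (D : Diagram t.tangle.P)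
    (hD : Orients D t.link) (F : Finite t.tangle.P) (hne : D.fPoly ≠ 1) :
    Separated ((2 ^ N + 1) * (2 * N + 1)) ⟨t.tangle.P, F, D⟩ unknot := by
  refine sep_of_card _ _ (dd ^ N) (pow_ne_zero _ dd_ne) _ ?_ ?_
  · have h1 := fPoly_Q N t ht hN D hD
    have h2 := (h1.mono (Nat.pow_le_pow_right (by norm_num) hN) le_rfl).sub (Q_ddpow N)
    have h3 := h2.card
    rw [fPoly_unknot]
    have e1 : dd ^ N * (D.fPoly - 1) = dd ^ N * D.fPoly - dd ^ N := by ring
    show (dd ^ N * (D.fPoly - 1)).coeff.support.card ≤ _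
    rw [e1]
    exact h3.trans (Nat.le_succ _)
  · rw [fPoly_unknot]
    exact hne

theorem detect_pair (N : ℕ) (t t' : Tree) (ht : t.Plain) (ht' : t'.Plain) (hN : size t ≤ N) (hN' : size t' ≤ N)
    (D : Diagram t.tangle.P) (hD : Orients D t.link) (D' : Diagram t'.tangle.P) (hD' : Orients D' t'.link)
    (F : Finite t.tangle.P) (F' : Finite t'.tangle.P) (hne : D.fPoly ≠ D'.fPoly) :
    Separated (2 ^ (N + 1) * (2 * N + 1)) ⟨t.tangle.P, F, D⟩ ⟨t'.tangle.P, F', D'⟩ := by
  refine sep_of_card _ _ (dd ^ N) (pow_ne_zero _ dd_ne) _ ?_ hne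
  have h1 := (fPoly_Q N t ht hN D hD).mono (Nat.pow_le_pow_right (by norm_num) hN) le_rfl
  have h2 := (fPoly_Q N t' ht' hN' D' hD').mono (Nat.pow_le_pow_right (by norm_num) hN') le_rfl
  have h3 := (h1.sub h2).card
  have e1 : dd ^ N * (D.fPoly - D'.fPoly) = dd ^ N * D.fPoly - dd ^ N * D'.fPoly := by ring
  show (dd ^ N * (D.fPoly - D'.fPoly)).coeff.support.card ≤ _
  rw [e1]
  refine h3.trans (le_trans (le_of_eq ?_) (Nat.le_succ _))
  rw [pow_succ]
  ring

theorem ne_one (t : Tree) (ht : t.Plain) (D : Diagram t.tangle.P) (hD : Orients D t.link)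
    (h : (t.Regular ∧ t.RootOk) ∨ (t.mirror.Regular ∧ t.mirror.RootOk)) : D.fPoly ≠ 1 := by
  intro h1
  refine not_unlink t D hD (h.imp id (fun h => ⟨ht, h⟩)) 1 0 (Or.inl rfl) 0 ?_
  rw [h1]
  simp

end Pool.Agent.N569.AO
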